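import Pool.Agent.W54.CL.Stm

set_option autoImplicit false

/-! # The exponential chart of the unit group of a product of copies of the reals and complexes -/

namespace Pool.Agent.W253.CL.CHART

open Topology Filter Pool.Agent.W54.CL

variable {A B : Type}

/-- The value of the chart. -/
noncomputable def val (x : (A → ℝ) × (B → ℂ)) : (A → ℝ) × (B → ℂ) :=
  (fun w => Real.exp (x.1 w), fun w => Complex.exp (x.2 w))

theorem val_mul (x y : (A → ℝ) × (B → ℂ)) : val (x + y) = val x * val y := by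
  refine Prod.ext ?_ ?_
  · funext w
    simp [val, Real.exp_add]
  · funext w
    simp [val, Complex.exp_add]

theorem val_zero : val (0 : (A → ℝ) × (B → ℂ)) = 1 := by
  refine Prod.ext ?_ ?_
  · funext w
    simp [val]
  · funext w
    simp [val]

/-- The chart. -/
noncomputable def psi (x : (A → ℝ) × (B → ℂ)) : ((A → ℝ) × (B → ℂ))ˣ where
  val := val x
  inv := val (-x)
  val_inv := by rw [← val_mul, add_neg_cancel, val_zero]
  inv_val := by rw [← val_mul, neg_add_cancel, val_zero]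

theorem psi_coe (x : (A → ℝ) × (B → ℂ)) :
    ((psi x : ((A → ℝ) × (B → ℂ))ˣ) : (A → ℝ) × (B → ℂ)) = val x := rfl

theorem val_cont : Continuous (val : (A → ℝ) × (B → ℂ) → (A → ℝ) × (B → ℂ)) := by
  unfold val
  refine Continuous.prodMk ?_ ?_
  · refine continuous_pi fun w => ?_
    exact Real.continuous_exp.comp ((continuous_apply w).comp continuous_fst)
  · refine continuous_pi fun w => ?_
    exact Complex.continuous_exp.comp ((continuous_apply w).comp continuous_snd)

theorem psi_cont : Continuous (psi : (A → ℝ) × (B → ℂ) → ((A → ℝ) × (B → ℂ))ˣ) := by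
  rw [Units.continuous_iff]
  exact ⟨val_cont, val_cont.comp continuous_neg⟩

/-- The section. -/
noncomputable def sec (g : ((A → ℝ) × (B → ℂ))ˣ) : (A → ℝ) × (B → ℂ) :=
  (fun w => Real.log ((g : (A → ℝ) × (B → ℂ)).1 w),
    fun w => Complex.log ((g : (A → ℝ) × (B → ℂ)).2 w))

theorem ne_fst (g : ((A → ℝ) × (B → ℂ))ˣ) (w : A) : (g : (A → ℝ) × (B → ℂ)).1 w ≠ 0 := by
  have h := g.mul_inv
  have h1 := congrFun (congrArg Prod.fst h) w
  intro h0
  rw [Prod.fst_mul, Pi.mul_apply, h0, zero_mul] at h1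
  exact zero_ne_one h1

theorem ne_snd (g : ((A → ℝ) × (B → ℂ))ˣ) (w : B) : (g : (A → ℝ) × (B → ℂ)).2 w ≠ 0 := by
  have h := g.mul_inv
  have h1 := congrFun (congrArg Prod.snd h) w
  intro h0
  rw [Prod.snd_mul, Pi.mul_apply, h0, zero_mul] at h1
  exact zero_ne_one h1

theorem sec_tendsto : Tendsto (sec : ((A → ℝ) × (B → ℂ))ˣ → _) (𝓝 1) (𝓝 0) := by
  have h0 : (0 : (A → ℝ) × (B → ℂ)) = (fun _ => 0, fun _ => 0) := rfl
  rw [h0]
  unfold sec
  refine Tendsto.prodMk_nhds ?_ ?_
  · rw [tendsto_pi_nhds]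
    intro w
    have h1 : Tendsto (fun g : ((A → ℝ) × (B → ℂ))ˣ => (g : (A → ℝ) × (B → ℂ)).1 w) (𝓝 1)
        (𝓝 1) := by
      have hc : Continuous (fun g : ((A → ℝ) × (B → ℂ))ˣ => (g : (A → ℝ) × (B → ℂ)).1 w) :=
        (continuous_apply w).comp (continuous_fst.comp Units.continuous_val)
      have := hc.tendsto 1
      simpa using this
    have h2 : Tendsto Real.log (𝓝 1) (𝓝 0) := by
      have := (Real.continuousAt_log (one_ne_zero)).tendsto
      simpa using this
    exact h2.comp h1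
  · rw [tendsto_pi_nhds]
    intro w
    have h1 : Tendsto (fun g : ((A → ℝ) × (B → ℂ))ˣ => (g : (A → ℝ) × (B → ℂ)).2 w) (𝓝 1)
        (𝓝 1) := by
      have hc : Continuous (fun g : ((A → ℝ) × (B → ℂ))ˣ => (g : (A → ℝ) × (B → ℂ)).2 w) :=
        (continuous_apply w).comp (continuous_snd.comp Units.continuous_val)
      have := hc.tendsto 1
      simpa using this
    have h2 : Tendsto Complex.log (𝓝 1) (𝓝 0) := by
      have := (continuousAt_clog (x := (1 : ℂ)) (by simp [Complex.slitPlane])).tendsto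
      simpa using this
    exact h2.comp h1

theorem sec_eq [Finite A] : ∀ᶠ g in 𝓝 (1 : ((A → ℝ) × (B → ℂ))ˣ), psi (sec g) = g := by
  have h1 : ∀ᶠ g : ((A → ℝ) × (B → ℂ))ˣ in 𝓝 (1 : ((A → ℝ) × (B → ℂ))ˣ), ∀ w : A,
      0 < (g : (A → ℝ) × (B → ℂ)).1 w := by
    rw [eventually_all]
    intro w
    have hc : Continuous (fun g : ((A → ℝ) × (B → ℂ))ˣ => (g : (A → ℝ) × (B → ℂ)).1 w) :=
      (continuous_apply w).comp (continuous_fst.comp Units.continuous_val)
    have h := hc.tendsto 1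
    refine h.eventually (lt_mem_nhds ?_)
    simp
  filter_upwards [h1] with g hg
  apply Units.ext
  rw [psi_coe]
  refine Prod.ext ?_ ?_
  · funext w
    simp only [val, sec]
    exact Real.exp_log (hg w)
  · funext w
    simp only [val, sec]
    exact Complex.exp_log (ne_snd g w)

/-- The units with signs. -/
noncomputable def sg (g : ((A → ℝ) × (B → ℂ))ˣ) : (A → ℝ) × (B → ℂ) :=
  (fun w => if 0 < (g : (A → ℝ) × (B → ℂ)).1 w then 1 else -1, fun _ => 1)

theorem sg_mul (g : ((A → ℝ) × (B → ℂ))ˣ) : sg g * sg g = 1 := by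
  refine Prod.ext ?_ ?_
  · funext w
    simp only [sg, Prod.fst_mul, Pi.mul_apply, Prod.fst_one, Pi.one_apply]
    split_ifs <;> norm_num
  · funext w
    simp [sg]

/-- The sign of a unit. -/
noncomputable def sgu (g : ((A → ℝ) × (B → ℂ))ˣ) : ((A → ℝ) × (B → ℂ))ˣ :=
  ⟨sg g, sg g, sg_mul g, sg_mul g⟩

theorem sgu_sign (g : ((A → ℝ) × (B → ℂ))ˣ) : IsSign (sgu g) := by
  constructor
  · intro w
    show (if 0 < (g : (A → ℝ) × (B → ℂ)).1 w then (1 : ℝ) else -1) = 1 ∨
      (if 0 < (g : (A → ℝ) × (B → ℂ)).1 w then (1 : ℝ) else -1) = -1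
    split_ifs
    · exact Or.inl rfl
    · exact Or.inr rfl
  · intro w
    rfl

theorem decomp (g : ((A → ℝ) × (B → ℂ))ˣ) : g = psi (sec g) * sgu g := by
  apply Units.ext
  rw [Units.val_mul, psi_coe]
  refine Prod.ext ?_ ?_
  · funext w
    show (g : (A → ℝ) × (B → ℂ)).1 w = Real.exp (Real.log ((g : (A → ℝ) × (B → ℂ)).1 w)) *
      (if 0 < (g : (A → ℝ) × (B → ℂ)).1 w then (1 : ℝ) else -1)
    rw [Real.exp_log_eq_abs (ne_fst g w)]
    split_ifs with h
    · rw [abs_of_pos h, mul_one]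
    · rw [abs_of_nonpos (not_lt.1 h)]
      ring
  · funext w
    show (g : (A → ℝ) × (B → ℂ)).2 w =
      Complex.exp (Complex.log ((g : (A → ℝ) × (B → ℂ)).2 w)) * 1
    rw [Complex.exp_log (ne_snd g w), mul_one]

theorem ker (x : (A → ℝ) × (B → ℂ)) (h : IsSign (psi x)) :
    ∃ q : B → ℤ, x = ((0 : A → ℝ), fun w => (q w : ℂ) * (2 * Real.pi * Complex.I)) := by
  obtain ⟨h1, h2⟩ := h
  have h3 : ∀ w, ∃ n : ℤ, x.2 w = n * (2 * Real.pi * Complex.I) := by
    intro w
    have := h2 w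
    change Complex.exp (x.2 w) = 1 at this
    exact Complex.exp_eq_one_iff.1 this
  choose q hq using h3
  refine ⟨q, ?_⟩
  refine Prod.ext ?_ ?_
  · funext w
    have := h1 w
    change Real.exp (x.1 w) = 1 ∨ Real.exp (x.1 w) = -1 at this
    rcases this with h | h
    · exact Real.exp_eq_one_iff _ |>.1 h
    · have := Real.exp_pos (x.1 w)
      rw [h] at this
      norm_num at this
  · funext w
    exact hq w

theorem main : Pool.Agent.W54.CL.StChart := by
  intro A B _ _ _
  refine ⟨psi, ⟨?_, psi_cont, sec, sec_tendsto, sec_eq⟩, fun x => rfl, fun g => ?_, ker⟩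
  · intro x y
    apply Units.ext
    rw [Units.val_mul, psi_coe, psi_coe, psi_coe, val_mul]
  · exact ⟨sec g, sgu g, decomp g, sgu_sign g⟩

end Pool.Agent.W253.CL.CHART
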